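import Mathlib

/-!
# A random choice of an element in every nonempty set

For `J` chosen uniformly among all maps with `J d ∈ d` for every nonempty `d ⊆ [k]`, the number of
sets `d` in a given family with `J d = j` is a sum of independent indicators; exponential moments
and a union bound give a choice function that is well distributed on all shifted balls of radius 3.
-/

set_option autoImplicit false

open Finset
open scoped symmDiff

namespace Pool.Agent.Q293.DMP

variable {k : ℕ}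

/-- the values allowed for `J d` -/
def S (d : Finset (Fin k)) : Finset (Fin k) := if d = ∅ then univ else d

/-- the number of `d ∈ D` with `J d = j` -/
def X (D : Finset (Finset (Fin k))) (j : Fin k) (J : Finset (Fin k) → Fin k) : ℕ :=
  (D.filter fun d => J d = j).card

lemma moment (D : Finset (Finset (Fin k))) (j : Fin k) (hD : ∀ d ∈ D, j ∈ d) (x : ℝ) :
    ∑ J ∈ Fintype.piFinset (S (k := k)), (1 + x) ^ X D j J =
      ((Fintype.piFinset (S (k := k))).card : ℝ) * ∏ d ∈ D, (1 + x / d.card) := by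
  have h1 : ∀ J : Finset (Fin k) → Fin k, (1 + x) ^ X D j J =
      ∏ d : Finset (Fin k), (if d ∈ D ∧ J d = j then 1 + x else 1) := by
    intro J
    rw [X, ← Finset.prod_const, Finset.prod_filter, ← Finset.prod_filter_mul_prod_filter_not univ
      (fun d => d ∈ D)]
    have h2 : (∏ d ∈ univ.filter (fun d => ¬ d ∈ D), (if d ∈ D ∧ J d = j then 1 + x else 1)) = 1 :=
      Finset.prod_eq_one fun d hd => by
        rw [mem_filter] at hd
        rw [if_neg (fun h => hd.2 h.1)]
    rw [h2, mul_one, Finset.filter_mem_eq_inter, Finset.univ_inter]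
    refine Finset.prod_congr rfl fun d hd => ?_
    by_cases h3 : J d = j
    · simp [hd, h3]
    · simp [hd, h3]
  rw [Finset.sum_congr rfl fun J _ => h1 J]
  rw [← Finset.prod_univ_sum (fun d => S d) (fun d a => if d ∈ D ∧ a = j then 1 + x else 1)]
  have h4 : ∀ d : Finset (Fin k), (∑ a ∈ S d, (if d ∈ D ∧ a = j then 1 + x else (1 : ℝ))) =
      ((S d).card : ℝ) * (if d ∈ D then 1 + x / d.card else 1) := by
    intro d
    by_cases hd : d ∈ D
    · have hj := hD d hd
      have hne : d ≠ ∅ := Finset.ne_empty_of_mem hj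
      have hS : S d = d := by rw [S, if_neg hne]
      have hc : (d.card : ℝ) ≠ 0 := by
        rw [Nat.cast_ne_zero, Finset.card_ne_zero]
        exact ⟨j, hj⟩
      simp only [hd, true_and, if_true, hS]
      have h5 : ∀ a : Fin k, (if a = j then 1 + x else (1 : ℝ)) = 1 + (if a = j then x else 0) := by
        intro a; split_ifs <;> ring
      rw [Finset.sum_congr rfl fun a _ => h5 a, Finset.sum_add_distrib, Finset.sum_ite_eq',
        if_pos hj]
      simp only [Finset.sum_const, nsmul_eq_mul, mul_one]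
      field_simp
    · simp [hd]
  rw [Finset.prod_congr rfl fun d _ => h4 d, Finset.prod_mul_distrib]
  congr 1
  · rw [Fintype.card_piFinset]
    push_cast
    rfl
  · rw [Finset.prod_ite_mem]
    simp

lemma lower_tail (D : Finset (Finset (Fin k))) (j : Fin k) (hD : ∀ d ∈ D, j ∈ d) (t : ℝ) :
    (((Fintype.piFinset (S (k := k))).filter fun J => (X D j J : ℝ) ≤ t).card : ℝ) ≤
      ((Fintype.piFinset (S (k := k))).card : ℝ) *
        Real.exp (7 / 10 * t - ∑ d ∈ D, 1 / (2 * (d.card : ℝ))) := by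
  set Ω := Fintype.piFinset (S (k := k)) with hΩ
  have h1 : ((Ω.filter fun J => (X D j J : ℝ) ≤ t).card : ℝ) * Real.exp (-(7 / 10 * t)) ≤
      ∑ J ∈ Ω, (1 + (-1 / 2 : ℝ)) ^ X D j J := by
    rw [← nsmul_eq_mul, ← Finset.sum_const]
    refine (Finset.sum_le_sum (g := fun J => (1 + (-1 / 2 : ℝ)) ^ X D j J) fun J hJ => ?_).trans
      (Finset.sum_le_sum_of_subset_of_nonneg (Finset.filter_subset _ _)
        (fun J _ _ => pow_nonneg (by norm_num) _))
    rw [mem_filter] at hJ
    have h2 : (1 + (-1 / 2 : ℝ)) ^ X D j J = Real.exp (-(Real.log 2 * X D j J)) := by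
      rw [Real.exp_neg, mul_comm, Real.exp_nat_mul, Real.exp_log (by norm_num)]
      rw [show (1 + (-1 / 2 : ℝ)) = 2⁻¹ by norm_num, inv_pow]
    rw [h2, Real.exp_le_exp]
    have h3 := Real.log_two_lt_d9
    have h4 : (0 : ℝ) ≤ X D j J := Nat.cast_nonneg _
    nlinarith [hJ.2]
  rw [moment D j hD] at h1
  have h5 : ∏ d ∈ D, (1 + (-1 / 2 : ℝ) / d.card) ≤
      Real.exp (- ∑ d ∈ D, 1 / (2 * (d.card : ℝ))) := by
    rw [← Finset.sum_neg_distrib, Real.exp_sum]
    refine Finset.prod_le_prod (fun d hd => ?_) (fun d hd => ?_)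
    · have : 1 ≤ (d.card : ℝ) := by
        exact_mod_cast Finset.card_pos.2 ⟨j, hD d hd⟩
      have h6 : (1 / 2 : ℝ) / d.card ≤ 1 / 2 := div_le_self (by norm_num) this
      have h7 : (-1 / 2 : ℝ) / d.card = - ((1 / 2 : ℝ) / d.card) := by ring
      rw [h7]; linarith
    · have := Real.add_one_le_exp (-(1 / (2 * (d.card : ℝ))))
      refine le_trans (le_of_eq ?_) this
      by_cases h : (d.card : ℝ) = 0
      · rw [h]; simp
      · field_simp; ring
  have h6 : (0 : ℝ) ≤ Ω.card := Nat.cast_nonneg _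
  have h7 := h1.trans (mul_le_mul_of_nonneg_left h5 h6)
  have h8 : Real.exp (7 / 10 * t - ∑ d ∈ D, 1 / (2 * (d.card : ℝ))) =
      Real.exp (7 / 10 * t) * Real.exp (- ∑ d ∈ D, 1 / (2 * (d.card : ℝ))) := by
    rw [← Real.exp_add]; ring_nf
  rw [h8]
  have h9 : Real.exp (7 / 10 * t) * Real.exp (-(7 / 10 * t)) = 1 := by
    rw [← Real.exp_add]; simp
  calc ((Ω.filter fun J => (X D j J : ℝ) ≤ t).card : ℝ)
      = ((Ω.filter fun J => (X D j J : ℝ) ≤ t).card : ℝ) * Real.exp (-(7 / 10 * t)) *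
          Real.exp (7 / 10 * t) := by rw [mul_assoc, mul_comm (Real.exp (-(7 / 10 * t))), h9, mul_one]
    _ ≤ (Ω.card * Real.exp (- ∑ d ∈ D, 1 / (2 * (d.card : ℝ)))) * Real.exp (7 / 10 * t) :=
        mul_le_mul_of_nonneg_right h7 (Real.exp_pos _).le
    _ = _ := by ring

lemma exp_le_three_half : Real.exp (2 / 5) ≤ 3 / 2 := by
  have h1 : Real.exp (2 / 5) ^ 5 = Real.exp 1 ^ 2 := by
    rw [← Real.exp_nat_mul, ← Real.exp_nat_mul]; norm_num
  have h2 := Real.exp_one_lt_d9
  have h3 : Real.exp 1 ^ 2 ≤ (3 / 2 : ℝ) ^ 5 := by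
    have := Real.exp_pos 1
    nlinarith
  rw [← h1] at h3
  exact le_of_pow_le_pow_left₀ (by norm_num) (by norm_num) h3

lemma upper_tail (D : Finset (Finset (Fin k))) (j : Fin k) (hD : ∀ d ∈ D, j ∈ d) (t : ℝ) :
    (((Fintype.piFinset (S (k := k))).filter fun J => t ≤ (X D j J : ℝ)).card : ℝ) ≤
      ((Fintype.piFinset (S (k := k))).card : ℝ) *
        Real.exp (∑ d ∈ D, 1 / (2 * (d.card : ℝ)) - 2 / 5 * t) := by
  set Ω := Fintype.piFinset (S (k := k)) with hΩ
  have h1 : ((Ω.filter fun J => t ≤ (X D j J : ℝ)).card : ℝ) * Real.exp (2 / 5 * t) ≤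
      ∑ J ∈ Ω, (1 + (1 / 2 : ℝ)) ^ X D j J := by
    rw [← nsmul_eq_mul, ← Finset.sum_const]
    refine (Finset.sum_le_sum (g := fun J => (1 + (1 / 2 : ℝ)) ^ X D j J) fun J hJ => ?_).trans
      (Finset.sum_le_sum_of_subset_of_nonneg (Finset.filter_subset _ _)
        (fun J _ _ => pow_nonneg (by norm_num) _))
    rw [mem_filter] at hJ
    calc Real.exp (2 / 5 * t) ≤ Real.exp (2 / 5 * X D j J) := by
          rw [Real.exp_le_exp]; linarith [hJ.2]
      _ = Real.exp (2 / 5) ^ X D j J := by rw [mul_comm, Real.exp_nat_mul]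
      _ ≤ _ := by
        refine pow_le_pow_left₀ (Real.exp_pos _).le ?_ _
        have := exp_le_three_half
        linarith
  rw [moment D j hD] at h1
  have h5 : ∏ d ∈ D, (1 + (1 / 2 : ℝ) / d.card) ≤
      Real.exp (∑ d ∈ D, 1 / (2 * (d.card : ℝ))) := by
    rw [Real.exp_sum]
    refine Finset.prod_le_prod (fun d hd => ?_) (fun d hd => ?_)
    · positivity
    · have := Real.add_one_le_exp (1 / (2 * (d.card : ℝ)))
      refine le_trans (le_of_eq ?_) this
      by_cases h : (d.card : ℝ) = 0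
      · rw [h]; simp
      · field_simp; ring
  have h6 : (0 : ℝ) ≤ Ω.card := Nat.cast_nonneg _
  have h7 := h1.trans (mul_le_mul_of_nonneg_left h5 h6)
  have h8 : Real.exp (∑ d ∈ D, 1 / (2 * (d.card : ℝ)) - 2 / 5 * t) =
      Real.exp (∑ d ∈ D, 1 / (2 * (d.card : ℝ))) * Real.exp (-(2 / 5 * t)) := by
    rw [← Real.exp_add]; ring_nf
  rw [h8]
  have h9 : Real.exp (2 / 5 * t) * Real.exp (-(2 / 5 * t)) = 1 := by
    rw [← Real.exp_add]; simp
  calc ((Ω.filter fun J => t ≤ (X D j J : ℝ)).card : ℝ)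
      = ((Ω.filter fun J => t ≤ (X D j J : ℝ)).card : ℝ) * Real.exp (2 / 5 * t) *
          Real.exp (-(2 / 5 * t)) := by rw [mul_assoc, h9, mul_one]
    _ ≤ (Ω.card * Real.exp (∑ d ∈ D, 1 / (2 * (d.card : ℝ)))) * Real.exp (-(2 / 5 * t)) :=
        mul_le_mul_of_nonneg_right h7 (Real.exp_pos _).le
    _ = _ := by ring

end Pool.Agent.Q293.DMP
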