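import Pool.Agent.Q293.DMP.Chern

/-!
# A choice function well distributed on balls of radius 3
-/

set_option autoImplicit false

open Finset
open scoped symmDiff

namespace Pool.Agent.Q293.DMP

variable {k : ℕ}

/-- the sets at distance at most 3 from `w` that contain `j` -/
def D (w : Finset (Fin k)) (j : Fin k) : Finset (Finset (Fin k)) :=
  univ.filter fun d => (d ∆ w).card ≤ 3 ∧ j ∈ d

lemma mem_D {w d : Finset (Fin k)} {j : Fin k} : d ∈ D w j ↔ (d ∆ w).card ≤ 3 ∧ j ∈ d := by
  simp [D]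

lemma rep {r : Finset (Fin k)} {j : Fin k} (hj : j ∈ r) (hr : r.card ≤ 3) :
    ∃ x y : Fin k, r = {j, x, y} := by
  have h1 : (r.erase j).card ≤ 2 := by rw [Finset.card_erase_of_mem hj]; omega
  have h2 : r = insert j (r.erase j) := (Finset.insert_erase hj).symm
  have h3 : (r.erase j).card = 0 ∨ (r.erase j).card = 1 ∨ (r.erase j).card = 2 := by omega
  rcases h3 with h | h | h
  · rw [Finset.card_eq_zero] at h
    refine ⟨j, j, ?_⟩
    rw [h2, h]; simp
  · obtain ⟨a, ha⟩ := Finset.card_eq_one.1 h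
    refine ⟨a, a, ?_⟩
    rw [h2, ha]; simp
  · obtain ⟨a, b, -, hab⟩ := Finset.card_eq_two.1 h
    exact ⟨a, b, by rw [h2, hab]⟩

lemma card_D_le (w : Finset (Fin k)) (j : Fin k) (hj : j ∉ w) :
    (D w j).card ≤ (k + 1).choose 2 := by
  have hcomm : ∀ x y : Fin k, w ∆ ({j, x, y} : Finset (Fin k)) = w ∆ {j, y, x} := by
    intro x y
    congr 1
    ext a; simp only [mem_insert, mem_singleton]; tauto
  have h1 : D w j ⊆ (univ : Finset (Sym2 (Fin k))).image
      (Sym2.lift ⟨fun x y => w ∆ ({j, x, y} : Finset (Fin k)), hcomm⟩) := by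
    intro d hd
    rw [mem_D] at hd
    have h2 : j ∈ d ∆ w := by
      rw [Finset.mem_symmDiff]; exact Or.inl ⟨hd.2, hj⟩
    obtain ⟨x, y, h3⟩ := rep h2 hd.1
    rw [Finset.mem_image]
    refine ⟨s(x, y), mem_univ _, ?_⟩
    rw [Sym2.lift_mk]
    change w ∆ ({j, x, y} : Finset (Fin k)) = d
    rw [← h3, symmDiff_comm d w, symmDiff_symmDiff_cancel_left]
  refine (Finset.card_le_card h1).trans (Finset.card_image_le.trans ?_)
  rw [Finset.card_univ, Sym2.card, Fintype.card_fin]

lemma card_small (w : Finset (Fin k)) (j : Fin k) (hj : j ∉ w) (hw : 4 ≤ w.card) :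
    ((D w j).filter fun d => d.card ≤ 6).card ≤ 10 * k := by
  by_cases hne : ((D w j).filter fun d => d.card ≤ 6) = ∅
  · rw [hne]; simp
  obtain ⟨d0, hd0⟩ := Finset.nonempty_iff_ne_empty.2 hne
  rw [mem_filter, mem_D] at hd0
  have hw9 : w.card ≤ 9 := by
    have h1 : w ⊆ d0 ∪ d0 ∆ w := by
      intro a ha
      rw [mem_union, Finset.mem_symmDiff]
      by_cases h : a ∈ d0
      · exact Or.inl h
      · exact Or.inr (Or.inr ⟨ha, h⟩)
    have h2 := (Finset.card_le_card h1).trans (Finset.card_union_le _ _)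
    omega
  have h1 : ((D w j).filter fun d => d.card ≤ 6) ⊆ ((insert j w) ×ˢ (univ : Finset (Fin k))).image
      (fun p => w ∆ ({j, p.1, p.2} : Finset (Fin k))) := by
    intro d hd
    rw [mem_filter, mem_D] at hd
    obtain ⟨⟨hd1, hd2⟩, hd3⟩ := hd
    have h2 : j ∈ d ∆ w := by
      rw [Finset.mem_symmDiff]; exact Or.inl ⟨hd2, hj⟩
    obtain ⟨x, y, h3⟩ := rep h2 hd1
    have h4 : w ∆ (d ∆ w) = d := by rw [symmDiff_comm d w, symmDiff_symmDiff_cancel_left]
    rw [Finset.mem_image]
    by_cases hx : x ∈ insert j w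
    · refine ⟨(x, y), by simp only [mem_product, mem_univ, and_true]; exact hx, ?_⟩
      change w ∆ ({j, x, y} : Finset (Fin k)) = d
      rw [← h3, h4]
    by_cases hy : y ∈ insert j w
    · refine ⟨(y, x), by simp only [mem_product, mem_univ, and_true]; exact hy, ?_⟩
      change w ∆ ({j, y, x} : Finset (Fin k)) = d
      have : ({j, y, x} : Finset (Fin k)) = {j, x, y} := by
        ext a; simp only [mem_insert, mem_singleton]; tauto
      rw [this, ← h3, h4]
    by_cases hxy : x = y
    · refine ⟨(j, x), by simp, ?_⟩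
      change w ∆ ({j, j, x} : Finset (Fin k)) = d
      have : ({j, j, x} : Finset (Fin k)) = {j, x, y} := by
        rw [hxy]; simp
      rw [this, ← h3, h4]
    · exfalso
      rw [mem_insert, not_or] at hx hy
      have h5 : (d ∆ w).card = 3 := by
        rw [h3, Finset.card_eq_three]
        exact ⟨j, x, y, fun h => hx.1 h.symm, fun h => hy.1 h.symm, hxy, rfl⟩
      have h6 : Disjoint w (d ∆ w) := by
        rw [h3, Finset.disjoint_right]
        intro a ha
        simp only [mem_insert, mem_singleton] at ha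
        rcases ha with rfl | rfl | rfl
        · exact hj
        · exact hx.2
        · exact hy.2
      have h7 : d.card = w.card + (d ∆ w).card := by
        conv_lhs => rw [← h4]
        rw [h6.symmDiff_eq_sup, Finset.sup_eq_union, Finset.card_union_of_disjoint h6]
      omega
  refine (Finset.card_le_card h1).trans (Finset.card_image_le.trans ?_)
  rw [Finset.card_product, Finset.card_univ, Fintype.card_fin]
  refine Nat.mul_le_mul_right _ ?_
  rw [Finset.card_insert_of_notMem hj]
  omega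

lemma high_sum (w : Finset (Fin k)) (j : Fin k) (hj : j ∉ w) (hw : 4 ≤ w.card) :
    ∑ d ∈ D w j, 1 / (2 * (d.card : ℝ)) ≤ (k : ℝ) * (k + 1) / 28 + 5 * k := by
  have hpos : ∀ d ∈ D w j, (1 : ℝ) ≤ d.card := by
    intro d hd
    rw [mem_D] at hd
    exact_mod_cast Finset.card_pos.2 ⟨j, hd.2⟩
  rw [← Finset.sum_filter_add_sum_filter_not (D w j) (fun d => d.card ≤ 6)]
  have h1 : ∑ d ∈ (D w j).filter (fun d => d.card ≤ 6), 1 / (2 * (d.card : ℝ)) ≤ 5 * k := by
    calc ∑ d ∈ (D w j).filter (fun d => d.card ≤ 6), 1 / (2 * (d.card : ℝ))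
        ≤ ∑ d ∈ (D w j).filter (fun d => d.card ≤ 6), (1 / 2 : ℝ) := by
          refine Finset.sum_le_sum fun d hd => ?_
          rw [mem_filter] at hd
          have := hpos d hd.1
          rw [div_le_div_iff₀ (by linarith) (by norm_num)]
          linarith
      _ = (((D w j).filter (fun d => d.card ≤ 6)).card : ℝ) / 2 := by
          rw [Finset.sum_const, nsmul_eq_mul]; ring
      _ ≤ ((10 * k : ℕ) : ℝ) / 2 := by
          have : (((D w j).filter (fun d => d.card ≤ 6)).card : ℝ) ≤ ((10 * k : ℕ) : ℝ) := by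
            exact_mod_cast card_small w j hj hw
          linarith
      _ = 5 * k := by push_cast; ring
  have h2 : ∑ d ∈ (D w j).filter (fun d => ¬ d.card ≤ 6), 1 / (2 * (d.card : ℝ)) ≤
      (k : ℝ) * (k + 1) / 28 := by
    calc ∑ d ∈ (D w j).filter (fun d => ¬ d.card ≤ 6), 1 / (2 * (d.card : ℝ))
        ≤ ∑ d ∈ (D w j).filter (fun d => ¬ d.card ≤ 6), (1 / 14 : ℝ) := by
          refine Finset.sum_le_sum fun d hd => ?_
          rw [mem_filter] at hd
          have : (7 : ℝ) ≤ d.card := by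
            have := hd.2
            exact_mod_cast (by omega : 7 ≤ d.card)
          rw [div_le_div_iff₀ (by linarith) (by norm_num)]
          linarith
      _ = (((D w j).filter (fun d => ¬ d.card ≤ 6)).card : ℝ) / 14 := by
          rw [Finset.sum_const, nsmul_eq_mul]; ring
      _ ≤ ((D w j).card : ℝ) / 14 := by
          have : (((D w j).filter (fun d => ¬ d.card ≤ 6)).card : ℝ) ≤ (D w j).card := by
            exact_mod_cast Finset.card_le_card (Finset.filter_subset _ _)
          linarith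
      _ ≤ (((k + 1).choose 2 : ℕ) : ℝ) / 14 := by
          have : ((D w j).card : ℝ) ≤ (((k + 1).choose 2 : ℕ) : ℝ) := by
            exact_mod_cast card_D_le w j hj
          linarith
      _ = (k : ℝ) * (k + 1) / 28 := by
          rw [Nat.cast_choose_two]; push_cast; ring
  linarith

lemma low_card (w : Finset (Fin k)) (j : Fin k) (hj : j ∈ w) :
    (k - 1).choose 3 ≤ (D w j).card := by
  have h1 : (((univ : Finset (Fin k)).erase j).powersetCard 3).image (fun r => w ∆ r) ⊆ D w j := by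
    intro d hd
    rw [Finset.mem_image] at hd
    obtain ⟨r, hr, rfl⟩ := hd
    rw [Finset.mem_powersetCard] at hr
    rw [mem_D, symmDiff_comm w r, symmDiff_symmDiff_cancel_right]
    refine ⟨hr.2.le, ?_⟩
    rw [Finset.mem_symmDiff]
    exact Or.inr ⟨hj, fun h => by simpa using hr.1 h⟩
  refine le_trans (le_of_eq ?_) (Finset.card_le_card h1)
  rw [Finset.card_image_of_injective _ (symmDiff_right_injective w), Finset.card_powersetCard,
    Finset.card_erase_of_mem (mem_univ j), Finset.card_univ, Fintype.card_fin]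

lemma choose_three_ge (k : ℕ) (hk : 4 ≤ k) :
    ((k : ℝ) ^ 3 - 6 * k ^ 2) / 6 ≤ ((k - 1).choose 3 : ℕ) := by
  have h1 : ((k - 1).choose 3 : ℕ) * 6 = (k - 1) * (k - 2) * (k - 3) := by
    obtain ⟨n, rfl⟩ : ∃ n, k = n + 4 := ⟨k - 4, by omega⟩
    have h2 := Nat.descFactorial_eq_factorial_mul_choose (n + 3) 3
    have h3 : Nat.factorial 3 = 6 := rfl
    rw [h3] at h2
    simp only [Nat.descFactorial_succ, Nat.descFactorial_zero] at h2
    have e1 : n + 4 - 1 = n + 3 := by omega
    have e2 : n + 4 - 2 = n + 2 := by omega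
    have e3 : n + 4 - 3 = n + 1 := by omega
    have e4 : n + 3 - 2 = n + 1 := by omega
    have e5 : n + 3 - 1 = n + 2 := by omega
    have e6 : n + 3 - 0 = n + 3 := by omega
    rw [e1, e2, e3]
    rw [e4, e5, e6] at h2
    linarith
  have h2 : (((k - 1).choose 3 : ℕ) : ℝ) * 6 = ((k : ℝ) - 1) * (k - 2) * (k - 3) := by
    have := congrArg (Nat.cast (R := ℝ)) h1
    push_cast at this
    rw [Nat.cast_sub (by omega), Nat.cast_sub (by omega), Nat.cast_sub (by omega)] at this
    push_cast at this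
    exact this
  have h3 : (4 : ℝ) ≤ k := by exact_mod_cast hk
  nlinarith

lemma low_sum (w : Finset (Fin k)) (j : Fin k) (hj : j ∈ w) (hk : 4 ≤ k) :
    ((k : ℝ) ^ 2 - 6 * k) / 12 ≤ ∑ d ∈ D w j, 1 / (2 * (d.card : ℝ)) := by
  have hk' : (4 : ℝ) ≤ k := by exact_mod_cast hk
  calc ((k : ℝ) ^ 2 - 6 * k) / 12 = ((k : ℝ) ^ 3 - 6 * k ^ 2) / 6 * (1 / (2 * k)) := by
        field_simp; ring
    _ ≤ ((k - 1).choose 3 : ℕ) * (1 / (2 * (k : ℝ))) :=
        mul_le_mul_of_nonneg_right (choose_three_ge k hk) (by positivity)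
    _ ≤ ((D w j).card : ℝ) * (1 / (2 * (k : ℝ))) := by
        refine mul_le_mul_of_nonneg_right ?_ (by positivity)
        exact_mod_cast low_card w j hj
    _ = ∑ d ∈ D w j, 1 / (2 * (k : ℝ)) := by rw [Finset.sum_const, nsmul_eq_mul]
    _ ≤ _ := by
        refine Finset.sum_le_sum fun d hd => ?_
        rw [mem_D] at hd
        have h1 : (1 : ℝ) ≤ d.card := by exact_mod_cast Finset.card_pos.2 ⟨j, hd.2⟩
        have h2 : (d.card : ℝ) ≤ k := by
          exact_mod_cast (Finset.card_le_univ d).trans (by rw [Fintype.card_fin])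
        rw [div_le_div_iff₀ (by linarith) (by linarith)]
        linarith

/-- the bad event for the pair `(w, j)` -/
noncomputable def bad (w : Finset (Fin k)) (j : Fin k) : Finset (Finset (Fin k) → Fin k) :=
  (Fintype.piFinset (S (k := k))).filter fun J =>
    4 ≤ w.card ∧ ((j ∈ w ∧ (X (D w j) j J : ℝ) ≤ (k : ℝ) ^ 2 / 10) ∨
      (j ∉ w ∧ (k : ℝ) ^ 2 / 10 ≤ (X (D w j) j J : ℝ)))

lemma card_bad (hk : 2000 ≤ k) (w : Finset (Fin k)) (j : Fin k) :
    ((bad w j).card : ℝ) ≤ ((Fintype.piFinset (S (k := k))).card : ℝ) * Real.exp (-(2 * k)) := by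
  have hk' : (2000 : ℝ) ≤ k := by exact_mod_cast hk
  have h0 : (0 : ℝ) ≤ (Fintype.piFinset (S (k := k))).card := Nat.cast_nonneg _
  by_cases hw : 4 ≤ w.card
  · by_cases hj : j ∈ w
    · have h1 : bad w j ⊆ (Fintype.piFinset (S (k := k))).filter fun J =>
          (X (D w j) j J : ℝ) ≤ (k : ℝ) ^ 2 / 10 := by
        intro J hJ
        rw [bad, mem_filter] at hJ
        rw [mem_filter]
        refine ⟨hJ.1, ?_⟩
        rcases hJ.2.2 with h | h
        · exact h.2
        · exact absurd hj h.1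
      have h2 := (Nat.cast_le (α := ℝ)).2 (Finset.card_le_card h1)
      refine h2.trans ((lower_tail (D w j) j (fun d hd => (mem_D.1 hd).2) _).trans ?_)
      refine mul_le_mul_of_nonneg_left ?_ h0
      rw [Real.exp_le_exp]
      have := low_sum w j hj (by omega)
      nlinarith
    · have h1 : bad w j ⊆ (Fintype.piFinset (S (k := k))).filter fun J =>
          (k : ℝ) ^ 2 / 10 ≤ (X (D w j) j J : ℝ) := by
        intro J hJ
        rw [bad, mem_filter] at hJ
        rw [mem_filter]
        refine ⟨hJ.1, ?_⟩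
        rcases hJ.2.2 with h | h
        · exact absurd h.1 hj
        · exact h.2
      have h2 := (Nat.cast_le (α := ℝ)).2 (Finset.card_le_card h1)
      refine h2.trans ((upper_tail (D w j) j (fun d hd => (mem_D.1 hd).2) _).trans ?_)
      refine mul_le_mul_of_nonneg_left ?_ h0
      rw [Real.exp_le_exp]
      have := high_sum w j hj hw
      nlinarith
  · have : bad w j = ∅ := by
      rw [bad, Finset.filter_eq_empty_iff]
      intro J _ h
      exact hw h.1
    rw [this]
    simp only [card_empty, Nat.cast_zero]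
    positivity

theorem exists_J (hk : 2000 ≤ k) : ∃ J : Finset (Fin k) → Fin k,
    (∀ d, d ≠ ∅ → J d ∈ d) ∧
    ∀ w : Finset (Fin k), 4 ≤ w.card → ∀ j : Fin k,
      (j ∈ w → (k : ℝ) ^ 2 / 10 < (X (D w j) j J : ℝ)) ∧
      (j ∉ w → (X (D w j) j J : ℝ) < (k : ℝ) ^ 2 / 10) := by
  classical
  set Ω := Fintype.piFinset (S (k := k)) with hΩ
  have hk' : (2000 : ℝ) ≤ k := by exact_mod_cast hk
  have hΩpos : (0 : ℝ) < Ω.card := by
    rw [Nat.cast_pos, Finset.card_pos, hΩ, Fintype.piFinset_nonempty]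
    intro d
    rw [S]
    split_ifs with h
    · exact ⟨⟨0, by omega⟩, mem_univ _⟩
    · exact Finset.nonempty_iff_ne_empty.2 h
  set B := (univ : Finset (Finset (Fin k) × Fin k)).biUnion (fun p => bad p.1 p.2) with hB
  have h1 : (B.card : ℝ) < Ω.card := by
    have h2 : (B.card : ℝ) ≤ ∑ p : Finset (Fin k) × Fin k, ((bad p.1 p.2).card : ℝ) := by
      exact_mod_cast Finset.card_biUnion_le
    have h3 : ∑ p : Finset (Fin k) × Fin k, ((bad p.1 p.2).card : ℝ) ≤
        ∑ _p : Finset (Fin k) × Fin k, (Ω.card : ℝ) * Real.exp (-(2 * k)) :=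
      Finset.sum_le_sum fun p _ => card_bad hk p.1 p.2
    rw [Finset.sum_const, Finset.card_univ, Fintype.card_prod, Fintype.card_finset,
      Fintype.card_fin, nsmul_eq_mul] at h3
    have h4 : (((2 ^ k * k : ℕ)) : ℝ) * Real.exp (-(2 * k)) < 1 := by
      push_cast
      have e1 : (2 : ℝ) ^ k ≤ Real.exp k := by
        have : (2 : ℝ) ≤ Real.exp 1 := by
          have := Real.add_one_le_exp (1 : ℝ); linarith
        calc (2 : ℝ) ^ k ≤ Real.exp 1 ^ k := pow_le_pow_left₀ (by norm_num) this _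
          _ = Real.exp k := by rw [← Real.exp_nat_mul]; simp
      have e2 : (k : ℝ) < Real.exp k := by
        have := Real.add_one_le_exp (k : ℝ); linarith
      have e3 : Real.exp (-(2 * k : ℝ)) = (Real.exp k)⁻¹ * (Real.exp k)⁻¹ := by
        rw [← Real.exp_neg, ← Real.exp_add]; ring_nf
      rw [e3]
      have e4 := Real.exp_pos (k : ℝ)
      have e5 : (2 : ℝ) ^ k * k < Real.exp k * Real.exp k := by
        have : (0 : ℝ) < (2 : ℝ) ^ k := by positivity
        nlinarith
      calc (2 : ℝ) ^ k * k * ((Real.exp k)⁻¹ * (Real.exp k)⁻¹) <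
          Real.exp k * Real.exp k * ((Real.exp k)⁻¹ * (Real.exp k)⁻¹) :=
            mul_lt_mul_of_pos_right e5 (by positivity)
        _ = 1 := by field_simp
    calc (B.card : ℝ) ≤ ((2 ^ k * k : ℕ) : ℝ) * (Ω.card * Real.exp (-(2 * k))) := h2.trans h3
      _ = Ω.card * (((2 ^ k * k : ℕ) : ℝ) * Real.exp (-(2 * k))) := by ring
      _ < Ω.card * 1 := mul_lt_mul_of_pos_left h4 hΩpos
      _ = Ω.card := mul_one _
  have h5 : ∃ J ∈ Ω, J ∉ B := by
    by_contra hcon
    push Not at hcon
    have : Ω.card ≤ B.card := Finset.card_le_card hcon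
    have : (Ω.card : ℝ) ≤ B.card := by exact_mod_cast this
    linarith
  obtain ⟨J, hJ, hJB⟩ := h5
  refine ⟨J, fun d hd => ?_, fun w hw j => ⟨fun hj => ?_, fun hj => ?_⟩⟩
  · have := Fintype.mem_piFinset.1 hJ d
    rwa [S, if_neg hd] at this
  · by_contra hcon
    push Not at hcon
    apply hJB
    rw [hB, Finset.mem_biUnion]
    refine ⟨(w, j), mem_univ _, ?_⟩
    rw [bad, mem_filter]
    exact ⟨hJ, hw, Or.inl ⟨hj, hcon⟩⟩
  · by_contra hcon
    push Not at hcon
    apply hJB
    rw [hB, Finset.mem_biUnion]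
    refine ⟨(w, j), mem_univ _, ?_⟩
    rw [bad, mem_filter]
    exact ⟨hJ, hw, Or.inr ⟨hj, hcon⟩⟩

end Pool.Agent.Q293.DMP
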